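import Pool.Agent.Helper99.ZS.Lib

set_option autoImplicit false
set_option linter.unusedSectionVars false

/-!
MP_98699e_co, module BR: one edge at the root.
-/

open Finset

noncomputable section

namespace ZS

theorem br_point {V : Type} [Fintype V] [DecidableEq V] {p : ℕ} [NeZero p] (h : Host V p) (a : RT)
    {s : Bool} {u w : V} (hw : w ∈ h.N s u) (T : ℕ) (A : Finset V) :
    (T : ℝ) - cs h (RT.cons a RT.nil) s u T A ≤
      ((T : ℝ) - cs h a (!s) w T A) +
      (((cs h a (!s) w T (insert u A) : ℕ) : ℝ) - ((cs h a (!s) w T (A.erase u) : ℕ) : ℝ)) +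
      (((cs h (RT.cons a RT.nil) s u T (insert w A) : ℕ) : ℝ) -
        ((cs h (RT.cons a RT.nil) s u T (A.erase w) : ℕ) : ℝ)) := by
  have h1 : ((cs h a (!s) w T (A.erase u) : ℕ) : ℝ) ≤
      ((cs h (RT.cons a RT.nil) s u T (insert w A) : ℕ) : ℝ) := by
    exact_mod_cast cs_branch h a hw T A
  have h2 : ((cs h (RT.cons a RT.nil) s u T (A.erase w) : ℕ) : ℝ) ≤
      ((cs h (RT.cons a RT.nil) s u T A : ℕ) : ℝ) := by
    exact_mod_cast cs_mono h _ s u T (erase_subset w A)
  have h3 : ((cs h a (!s) w T A : ℕ) : ℝ) ≤ ((cs h a (!s) w T (insert u A) : ℕ) : ℝ) := by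
    exact_mod_cast cs_mono h _ (!s) w T (subset_insert u A)
  linarith

theorem st_BR (hI : ST_INF) : ST_BR := by
  intro V _ _ p _ h D hD hg a s T θ h0 h1
  have hi1 := ave_infl hI hD hg (!s) h0 h1 (M := (T : ℝ))
    (fun w A => ((cs h a (!s) w T A : ℕ) : ℝ))
    (fun w A B hAB => by exact_mod_cast cs_mono h _ (!s) w T hAB)
    (fun w A => by positivity) (fun w A => by exact_mod_cast cs_le h _ (!s) w T A)
  have hi2 := ave_infl hI hD hg s h0 h1 (M := (T : ℝ))
    (fun w A => ((cs h (RT.cons a RT.nil) s w T A : ℕ) : ℝ))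
    (fun w A B hAB => by exact_mod_cast cs_mono h _ s w T hAB)
    (fun w A => by positivity) (fun w A => by exact_mod_cast cs_le h _ s w T A)
  have hsw := ave_swap h s (fun u w => EE θ fun A =>
    ((cs h a (!s) w T (insert u A) : ℕ) : ℝ) - ((cs h a (!s) w T (A.erase u) : ℕ) : ℝ))
  have hlhs : DF h θ (RT.cons a RT.nil) s T =
      ave h s (fun u _ => EE θ fun A => (T : ℝ) - cs h (RT.cons a RT.nil) s u T A) := by
    rw [ave_left]
    rfl
  have hrhs : DF h θ a (!s) T =
      ave h s (fun _ w => EE θ fun A => (T : ℝ) - cs h a (!s) w T A) := by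
    rw [ave_right]
    rfl
  have hmono : ave h s (fun u _ => EE θ fun A => (T : ℝ) - cs h (RT.cons a RT.nil) s u T A) ≤
      ave h s (fun u w => ((EE θ fun A => (T : ℝ) - cs h a (!s) w T A) +
        (EE θ fun A => ((cs h a (!s) w T (insert u A) : ℕ) : ℝ) -
          ((cs h a (!s) w T (A.erase u) : ℕ) : ℝ))) +
        (EE θ fun A => ((cs h (RT.cons a RT.nil) s u T (insert w A) : ℕ) : ℝ) -
          ((cs h (RT.cons a RT.nil) s u T (A.erase w) : ℕ) : ℝ))) := by
    refine ave_mono fun u w hw => ?_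
    rw [← EE_add, ← EE_add]
    exact EE_mono h0.le h1 fun A => br_point h a hw T A
  rw [ave_add, ave_add] at hmono
  rw [hlhs, hrhs]
  refine hmono.trans ?_
  rw [hsw]
  have : (2 : ℝ) * T / (θ * D) = T / (θ * D) + T / (θ * D) := by ring
  rw [this]
  linarith

end ZS
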