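import Pool.Agent.Helper99.ZS.Lib

set_option autoImplicit false

/-!
MP_98699e_co, module CENT: a centroid of a rooted tree, with respect to the number of growth
vertices.
-/

open Finset

noncomputable section

namespace ZS

/-- number of children of the root -/
def cent_k : RT → ℕ
  | RT.nil => 0
  | RT.cons _ b => cent_k b + 1

theorem cent_k_app : ∀ a b : RT, cent_k (a.app b) = cent_k a + cent_k b
  | RT.nil, b => by simp [RT.app, cent_k]
  | RT.cons a a', b => by
    simp only [RT.app, cent_k]
    rw [cent_k_app a' b]
    omega

theorem cent_small : ∀ a : RT, a.small ↔ cent_k a ≤ 1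
  | RT.nil => by simp [RT.small, cent_k]
  | RT.cons a RT.nil => by simp [RT.small, cent_k]
  | RT.cons a (RT.cons b c) => by simp [RT.small, cent_k]

/-- correction term -/
def cent_rho (s : Bool) (n : ℕ) : ℕ := if s = false ∧ n ≤ 2 then 1 else 0

theorem cent_rho_le (s : Bool) (n : ℕ) : cent_rho s n ≤ 1 := by
  unfold cent_rho
  split_ifs <;> simp

open Classical in
theorem cent_g_cons (s : Bool) (a b : RT) :
    (RT.cons a b).g s = a.g (!s) + b.g s + if s = true ∧ a.small then 1 else 0 := by
  simp only [RT.g]

theorem cent_g_nil (s : Bool) : RT.nil.g s = 0 := by simp only [RT.g]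

/-- the weight does not change when the root moves -/
theorem cent_move (s : Bool) (a b v : RT) :
    a.g (!s) + (RT.cons (b.app v) RT.nil).g (!s) +
      cent_rho (!s) (cent_k a + cent_k (RT.cons (b.app v) RT.nil)) =
    (RT.cons a b).g s + v.g s + cent_rho s (cent_k (RT.cons a b) + cent_k v) := by
  classical
  rw [cent_g_cons, cent_g_cons, g_app, cent_g_nil]
  simp only [cent_small, cent_k_app, cent_k, cent_rho]
  cases s
  · simp only [Bool.not_false, Bool.not_true, true_and, Bool.true_eq_false, Bool.false_eq_true,
      false_and, if_false]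
    split_ifs <;> omega
  · simp only [Bool.not_false, Bool.not_true, true_and, Bool.true_eq_false, Bool.false_eq_true,
      false_and, if_false]
    split_ifs <;> omega

theorem cent_main (hR : ST_RER) (W : ℕ) (hW : 16 ≤ W) : ∀ (n : ℕ) (t v : RT) (s : Bool), t.e ≤ n →
    t.g s + v.g s + cent_rho s (cent_k t + cent_k v) = W → 4 * v.g s < W →
    ∃ (s' : Bool) (t₁ t₂ : RT), t₁.e + t₂.e = t.e + v.e ∧ W ≤ 4 * t₁.g s' ∧ W ≤ 4 * t₂.g s' ∧
      ∀ (V : Type) [Fintype V] [DecidableEq V] (p : ℕ) (h : Host V p) (u : V) (φ : Finset V)
        (x : ZMod p), Emb h (t₁.app t₂) s' u φ x → ∃ u' φ', Emb h (t.app v) s u' φ' x := by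
  classical
  intro n
  induction n with
  | zero =>
    intro t v s ht hw hv
    have ht0 : t = RT.nil := by
      cases t with
      | nil => rfl
      | cons a b =>
        simp only [RT.e] at ht
        omega
    subst ht0
    rw [cent_g_nil] at hw
    have := cent_rho_le s (cent_k RT.nil + cent_k v)
    omega
  | succ n ih =>
    intro t v s ht hw hv
    cases t with
    | nil =>
      rw [cent_g_nil] at hw
      have := cent_rho_le s (cent_k RT.nil + cent_k v)
      omega
    | cons a b =>
      have hrho := cent_rho_le s (cent_k (RT.cons a b) + cent_k v)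
      have hea : a.e + b.e + 1 ≤ n + 1 := by simpa only [RT.e] using ht
      have hsum : (RT.cons a b).g s = (RT.cons a RT.nil).g s + b.g s := by
        rw [cent_g_cons, cent_g_cons, cent_g_nil]
        ring
      by_cases hx : 4 * (RT.cons a RT.nil).g s < W
      · -- keep the root, put `a` aside
        have hv' : ((RT.cons a RT.nil).app v).g s = (RT.cons a RT.nil).g s + v.g s := g_app s _ _
        have hev' : ((RT.cons a RT.nil).app v).e = a.e + 1 + v.e := by
          rw [e_app]
          simp only [RT.e]
        by_cases hz : W ≤ 4 * ((RT.cons a RT.nil).g s + v.g s)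
        · refine ⟨s, b, (RT.cons a RT.nil).app v, ?_, ?_, ?_, ?_⟩
          · rw [hev']
            simp only [RT.e]
            omega
          · omega
          · rw [hv']
            exact hz
          · intro V _ _ p h u φ x hE
            exact ⟨u, φ, (hR V p h a b v s u φ x).2 hE⟩
        · have hk : cent_k b + cent_k ((RT.cons a RT.nil).app v) =
              cent_k (RT.cons a b) + cent_k v := by
            rw [cent_k_app]
            simp only [cent_k]
            omega
          obtain ⟨s', t₁, t₂, h1, h2, h3, h4⟩ := ih b ((RT.cons a RT.nil).app v) s (by omega)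
            (by rw [hk, hv']; omega) (by rw [hv']; omega)
          refine ⟨s', t₁, t₂, ?_, h2, h3, ?_⟩
          · rw [h1, hev']
            simp only [RT.e]
            omega
          · intro V _ _ p h u φ x hE
            obtain ⟨u', φ', hE'⟩ := h4 V p h u φ x hE
            exact ⟨u', φ', (hR V p h a b v s u' φ' x).2 hE'⟩
      · by_cases hyz : W ≤ 4 * (b.g s + v.g s)
        · refine ⟨s, RT.cons a RT.nil, b.app v, ?_, ?_, ?_, ?_⟩
          · rw [e_app]
            simp only [RT.e]
            omega
          · omega
          · rw [g_app]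
            exact hyz
          · intro V _ _ p h u φ x hE
            exact ⟨u, φ, hE⟩
        · -- move the root
          have hmv := cent_move s a b v
          have hrho' := cent_rho_le (!s) (cent_k a + cent_k (RT.cons (b.app v) RT.nil))
          have hga : (RT.cons a RT.nil).g s ≤ a.g (!s) + 1 := by
            rw [cent_g_cons, cent_g_nil]
            split_ifs <;> omega
          have hev' : (RT.cons (b.app v) RT.nil).e = b.e + v.e + 1 := by
            simp only [RT.e]
            rw [e_app]
          by_cases hg : W ≤ 4 * (RT.cons (b.app v) RT.nil).g (!s)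
          · refine ⟨!s, a, RT.cons (b.app v) RT.nil, ?_, ?_, hg, ?_⟩
            · rw [hev']
              simp only [RT.e]
              omega
            · omega
            · intro V _ _ p h u φ x hE
              exact (hR V p h a b v s u φ x).1 hE
          · obtain ⟨s', t₁, t₂, h1, h2, h3, h4⟩ := ih a (RT.cons (b.app v) RT.nil) (!s)
              (by omega) (by omega) (by omega)
            refine ⟨s', t₁, t₂, ?_, h2, h3, ?_⟩
            · rw [h1, hev']
              simp only [RT.e]
              omega
            · intro V _ _ p h u φ x hE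
              obtain ⟨u', φ', hE'⟩ := h4 V p h u φ x hE
              exact (hR V p h a b v s u' φ' x).1 hE'

theorem st_CENT (h1 : ST_CNT) (h2 : ST_RER) : ST_CENT := by
  intro t ht
  have hc := h1 t
  have hs : ∃ s : Bool, t.e ≤ 4 * t.g s := by
    by_cases h : t.e ≤ 4 * t.g true
    · exact ⟨true, h⟩
    · exact ⟨false, by omega⟩
  obtain ⟨s, hs⟩ := hs
  obtain ⟨s', t₁, t₂, ha, hb, hd, he⟩ := cent_main h2 _ (by omega) t.e t RT.nil s le_rfl rfl
    (by rw [cent_g_nil]; omega)
  rw [app_nil] at he
  refine ⟨s, s', t₁, t₂, ?_, ?_, ?_, he⟩
  · rw [ha]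
    simp only [RT.e]
    omega
  · omega
  · omega

end ZS
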