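import Pool.Agent.Helper99.ZS.Lib

set_option autoImplicit false
set_option linter.unusedSectionVars false

/-!
MP_98699e_co, module CODE: every finite tree is coded by a rooted ordered tree.
-/

open Finset

noncomputable section

namespace ZS

variable {τ : Type} [Fintype τ] [DecidableEq τ]

/-- adjacency inside `I`, without the edge `r r'` (take `r = r'` to remove nothing) -/
def code_A (T : SimpleGraph τ) (I : Finset τ) (x y : τ) : Prop := x ∈ I ∧ y ∈ I ∧ T.Adj x y

/-- adjacency inside `I`, without the edge `r r'` -/
def code_K (T : SimpleGraph τ) (I : Finset τ) (r r' : τ) (x y : τ) : Prop :=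
  code_A T I x y ∧ ¬ (x = r ∧ y = r') ∧ ¬ (x = r' ∧ y = r)

theorem code_K_symm (T : SimpleGraph τ) (I : Finset τ) (r r' : τ) {x y : τ}
    (h : code_K T I r r' x y) : code_K T I r r' y x :=
  ⟨⟨h.1.2.1, h.1.1, h.1.2.2.symm⟩, fun h' => h.2.2 ⟨h'.2, h'.1⟩, fun h' => h.2.1 ⟨h'.2, h'.1⟩⟩

theorem code_tr_symm (T : SimpleGraph τ) (I : Finset τ) (r r' : τ) {x y : τ}
    (h : Relation.ReflTransGen (code_K T I r r') x y) :
    Relation.ReflTransGen (code_K T I r r') y x := by
  induction h with
  | refl => exact Relation.ReflTransGen.refl
  | tail _ hbc ih => exact Relation.ReflTransGen.head (code_K_symm T I r r' hbc) ih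

/-- the edge is a bridge -/
theorem code_bridge (T : SimpleGraph τ) (hT : T.IsAcyclic) (I : Finset τ) {r r' : τ}
    (hr : T.Adj r r') : ¬ Relation.ReflTransGen (code_K T I r r') r r' := by
  intro h
  have hb := (SimpleGraph.isAcyclic_iff_forall_adj_isBridge.1 hT) hr
  have hb' := (SimpleGraph.isBridge_iff.1 hb)
  have key : ∀ x y : τ, Relation.ReflTransGen (code_K T I r r') x y →
      (T.deleteEdges {s(r, r')}).Reachable x y := by
    intro x y hxy
    induction hxy with
    | refl => exact SimpleGraph.Reachable.refl _
    | tail _ hbc ih =>
      refine ih.trans (SimpleGraph.Adj.reachable ?_)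
      rw [SimpleGraph.deleteEdges_adj]
      refine ⟨hbc.1.2.2, ?_⟩
      intro hmem
      rw [Set.mem_singleton_iff, Sym2.eq_iff] at hmem
      rcases hmem with h' | h'
      · exact hbc.2.1 h'
      · exact hbc.2.2 h'
  exact hb' (key _ _ h)

theorem code_main (T : SimpleGraph τ) (hT : T.IsAcyclic) : ∀ (n : ℕ) (I : Finset τ) (r : τ),
    #I ≤ n → r ∈ I → (∀ x ∈ I, Relation.ReflTransGen (code_A T I) r x) →
    ∃ t : RT, Codes T t I r := by
  classical
  intro n
  induction n with
  | zero =>
    intro I r hn hr _
    have : 0 < #I := card_pos.2 ⟨r, hr⟩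
    omega
  | succ n ih =>
    intro I r hn hr hI
    by_cases hex : ∃ r', code_A T I r r'
    · obtain ⟨r', hr'⟩ := hex
      have hbr := code_bridge T hT I hr'.2.2
      set K := code_K T I r r' with hK
      set J : Finset τ := {x ∈ I | Relation.ReflTransGen K r x} with hJ
      set I' : Finset τ := {x ∈ I | Relation.ReflTransGen K r' x} with hI'
      have hrJ : r ∈ J := by
        rw [hJ, mem_filter]
        exact ⟨hr, Relation.ReflTransGen.refl⟩
      have hrI' : r' ∈ I' := by
        rw [hI', mem_filter]
        exact ⟨hr'.2.1, Relation.ReflTransGen.refl⟩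
      have hno : ∀ x, Relation.ReflTransGen K r' x → ¬ Relation.ReflTransGen K r x := by
        intro x h1 h2
        exact hbr (h2.trans (code_tr_symm T I r r' h1))
      have hdis : Disjoint I' J := by
        rw [Finset.disjoint_left]
        intro x h1 h2
        rw [hI', mem_filter] at h1
        rw [hJ, mem_filter] at h2
        exact hno x h1.2 h2.2
      have hcov : ∀ x, Relation.ReflTransGen (code_A T I) r x →
          Relation.ReflTransGen K r' x ∨ Relation.ReflTransGen K r x := by
        intro x hx
        induction hx with
        | refl => exact Or.inr Relation.ReflTransGen.refl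
        | @tail b c _ hbc ih' =>
          by_cases h1 : b = r ∧ c = r'
          · rw [h1.2]
            exact Or.inl Relation.ReflTransGen.refl
          · by_cases h2 : b = r' ∧ c = r
            · rw [h2.2]
              exact Or.inr Relation.ReflTransGen.refl
            · have hk : K b c := ⟨hbc, h1, h2⟩
              rcases ih' with h | h
              · exact Or.inl (h.tail hk)
              · exact Or.inr (h.tail hk)
      have hun : I' ∪ J = I := by
        ext x
        rw [mem_union, hI', hJ, mem_filter, mem_filter]
        constructor
        · rintro (h | h)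
          · exact h.1
          · exact h.1
        · intro hx
          rcases hcov x (hI x hx) with h | h
          · exact Or.inl ⟨hx, h⟩
          · exact Or.inr ⟨hx, h⟩
      have hcard : #I' + #J = #I := by
        rw [← hun, card_union_of_disjoint hdis]
      have hcJ : 0 < #J := card_pos.2 ⟨r, hrJ⟩
      have hcI : 0 < #I' := card_pos.2 ⟨r', hrI'⟩
      -- reachability inside the two parts
      have hrJ' : ∀ x, Relation.ReflTransGen K r x → Relation.ReflTransGen (code_A T J) r x := by
        intro x hx
        induction hx with
        | refl => exact Relation.ReflTransGen.refl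
        | @tail b c hb hbc ih' =>
          refine ih'.tail ⟨?_, ?_, hbc.1.2.2⟩
          · rw [hJ, mem_filter]
            exact ⟨hbc.1.1, hb⟩
          · rw [hJ, mem_filter]
            exact ⟨hbc.1.2.1, hb.tail hbc⟩
      have hrI'' : ∀ x, Relation.ReflTransGen K r' x →
          Relation.ReflTransGen (code_A T I') r' x := by
        intro x hx
        induction hx with
        | refl => exact Relation.ReflTransGen.refl
        | @tail b c hb hbc ih' =>
          refine ih'.tail ⟨?_, ?_, hbc.1.2.2⟩
          · rw [hI', mem_filter]
            exact ⟨hbc.1.1, hb⟩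
          · rw [hI', mem_filter]
            exact ⟨hbc.1.2.1, hb.tail hbc⟩
      obtain ⟨a, ha⟩ := ih I' r' (by omega) hrI' (by
        intro x hx
        rw [hI', mem_filter] at hx
        exact hrI'' x hx.2)
      obtain ⟨b, hb⟩ := ih J r (by omega) hrJ (by
        intro x hx
        rw [hJ, mem_filter] at hx
        exact hrJ' x hx.2)
      refine ⟨RT.cons a b, ?_⟩
      have hfin := Codes.cons a b I' J r r' ha hb hdis hr'.2.2 (by
        intro x hx y hy hxy
        rw [hI', mem_filter] at hx
        rw [hJ, mem_filter] at hy
        by_contra hcon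
        by_cases h1 : x = r ∧ y = r'
        · rw [h1.1] at hx
          exact hno r hx.2 Relation.ReflTransGen.refl
        · have hk : K x y := ⟨⟨hx.1, hy.1, hxy⟩, h1, hcon⟩
          exact hno y (hx.2.tail hk) hy.2)
      rw [hun] at hfin
      exact hfin
    · have hIr : I = {r} := by
        ext x
        rw [mem_singleton]
        constructor
        · intro hx
          have hrx := hI x hx
          rcases Relation.ReflTransGen.cases_head hrx with h | ⟨c, hc, _⟩
          · exact h.symm
          · exact absurd ⟨c, hc⟩ hex
        · intro hx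
          rw [hx]
          exact hr
      refine ⟨RT.nil, ?_⟩
      rw [hIr]
      exact Codes.nil r

theorem code_lift (T : SimpleGraph τ) {r x : τ} (h : Relation.ReflTransGen T.Adj r x) :
    Relation.ReflTransGen (code_A T univ) r x := by
  induction h with
  | refl => exact Relation.ReflTransGen.refl
  | tail _ hbc ih => exact ih.tail ⟨mem_univ _, mem_univ _, hbc⟩

theorem st_CODE : ST_CODE := by
  intro τ _ _ T hT r
  have hac : T.IsAcyclic := hT.isAcyclic
  refine code_main T hac _ univ r le_rfl (mem_univ r) (fun x _ => ?_)
  have hc : T.Reachable r x := hT.1.preconnected r x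
  rw [SimpleGraph.reachable_iff_reflTransGen] at hc
  exact code_lift T hc

end ZS
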