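import Pool.Agent.Helper99.ZS.Lib

set_option autoImplicit false
set_option linter.unusedSectionVars false

/-!
MP_98699e_co, module COND: conditioning.
-/

open Finset

noncomputable section

namespace ZS

variable {V : Type} [Fintype V] [DecidableEq V]

theorem cond_fib (Q : ℝ) (a A : Finset V) (hd : Disjoint A a) :
    ∑ B : Finset V with B \ a = A, Q ^ #B * (1 - Q) ^ (Fintype.card V - #B) =
      Q ^ #A * (1 - Q) ^ (Fintype.card V - #A - #a) := by
  have h1 : ∑ B : Finset V with B \ a = A, Q ^ #B * (1 - Q) ^ (Fintype.card V - #B) =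
      ∑ C ∈ a.powerset, (Q ^ #A * (1 - Q) ^ (Fintype.card V - #A - #a)) *
        (Q ^ #C * (1 - Q) ^ (#a - #C)) := by
    refine sum_nbij' (fun B => B ∩ a) (fun C => A ∪ C) ?_ ?_ ?_ ?_ ?_
    · intro B _
      exact mem_powerset.2 inter_subset_right
    · intro C hC
      rw [mem_powerset] at hC
      rw [mem_filter]
      refine ⟨mem_univ _, ?_⟩
      rw [union_sdiff_distrib, sdiff_eq_empty_iff_subset.2 hC, union_empty]
      exact sdiff_eq_self_of_disjoint hd
    · intro B hB
      rw [mem_filter] at hB
      rw [← hB.2]
      exact sdiff_union_inter B a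
    · intro C hC
      rw [mem_powerset] at hC
      rw [union_inter_distrib_right, disjoint_iff_inter_eq_empty.1 hd, empty_union]
      exact inter_eq_left.2 hC
    · intro B hB
      rw [mem_filter] at hB
      have h2 : #B = #A + #(B ∩ a) := by
        rw [← hB.2]
        exact (card_sdiff_add_card_inter B a).symm
      have h3 : #(B ∩ a) ≤ #a := card_le_card inter_subset_right
      have h4 : #A + #a ≤ Fintype.card V := by
        rw [← card_union_of_disjoint hd]
        exact card_le_univ _
      have h5 : Fintype.card V - #B = (Fintype.card V - #A - #a) + (#a - #(B ∩ a)) := by omega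
      rw [h5, h2, pow_add, pow_add]
      ring
  rw [h1, ← mul_sum, sum_pow_mul_eq_add_pow]
  rw [show Q + (1 - Q) = 1 by ring, one_pow, mul_one]

theorem cond_inner (Q : ℝ) (a : Finset V) (F : Finset V → Finset V → ℝ) :
    E Q (fun B => F (B \ a) a) =
      ∑ A : Finset V, if Disjoint A a then
        Q ^ #A * (1 - Q) ^ (Fintype.card V - #A - #a) * F A a else 0 := by
  unfold E
  rw [← sum_fiberwise (univ : Finset (Finset V)) (fun B : Finset V => B \ a)]
  refine sum_congr rfl fun A _ => ?_
  split_ifs with hd
  · rw [← cond_fib Q a A hd, sum_mul]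
    refine sum_congr rfl fun B hB => ?_
    have hB2 := (mem_filter.1 hB).2
    simp only [hB2]
  · refine sum_eq_zero fun B hB => ?_
    exfalso
    apply hd
    rw [← (mem_filter.1 hB).2]
    exact sdiff_disjoint

theorem st_COND : ST_COND := by
  intro V _ _ q r hr F
  have hr' : (1 - r) ≠ 0 := by
    intro h
    linarith
  unfold E2
  rw [sum_comm]
  rw [E]
  refine sum_congr rfl fun a _ => ?_
  rw [cond_inner, mul_sum]
  refine sum_congr rfl fun A _ => ?_
  split_ifs with hd
  · have h4 : #A + #a ≤ Fintype.card V := by
      rw [← card_union_of_disjoint hd]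
      exact card_le_univ _
    have h5 : Fintype.card V - #a = (Fintype.card V - #A - #a) + #A := by omega
    have h6 : (1 - q - r) = (1 - r) * (1 - q / (1 - r)) := by
      field_simp
      ring
    have h7 : q ^ #A = (1 - r) ^ #A * (q / (1 - r)) ^ #A := by
      rw [← mul_pow]
      congr 1
      field_simp
    rw [h5, h6, h7, mul_pow, pow_add]
    ring
  · rw [mul_zero]

end ZS
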