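import Pool.Agent.Helper99.ZS.Lib
import Pool.Agent.Helper32.ZS.CODE

set_option autoImplicit false
set_option linter.unusedSectionVars false

/-!
MP_98699e_co, module MONO: greedy embedding of a tree.
-/

open Finset

noncomputable section

namespace ZS

variable {τ : Type} [Fintype τ] [DecidableEq τ]

theorem mono_root (T : SimpleGraph τ) {t : RT} {I : Finset τ} {r : τ} (h : Codes T t I r) :
    r ∈ I := by
  induction h with
  | nil r => exact mem_singleton_self r
  | cons a b I J r r' _ _ _ _ _ _ ihb => exact mem_union_right _ ihb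

theorem mono_main {V : Type} [Fintype V] [DecidableEq V] (T : SimpleGraph τ) (H : SimpleGraph V)
    [DecidableRel H.Adj] (W : Finset V) (m : ℕ) (hW : ∀ v ∈ W, m ≤ #{w ∈ W | H.Adj v w})
    {t : RT} {I : Finset τ} {r : τ} (h : Codes T t I r) :
    ∀ (u : V) (U : Finset V), u ∈ W → u ∉ U → #U + #I ≤ m + 1 →
    ∃ f : τ → V, f r = u ∧ (∀ x ∈ I, f x ∈ W) ∧ (∀ x ∈ I, f x ∉ U) ∧ Set.InjOn f (I : Set τ) ∧
      ∀ x ∈ I, ∀ y ∈ I, T.Adj x y → H.Adj (f x) (f y) := by
  induction h with
  | nil r =>
    intro u U huW huU _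
    refine ⟨fun _ => u, rfl, fun _ _ => huW, fun _ _ => huU, ?_, ?_⟩
    · intro x hx y hy _
      rw [mem_coe, mem_singleton] at hx hy
      rw [hx, hy]
    · intro x hx y hy hxy
      rw [mem_singleton] at hx hy
      rw [hx, hy] at hxy
      exact absurd hxy (T.loopless.irrefl r)
  | cons a b I J r r' ha hb hdis hrr hIJ iha ihb =>
    intro u U huW huU hcard
    rw [card_union_of_disjoint hdis] at hcard
    have hrI : r' ∈ I := mono_root T ha
    have hrJ : r ∈ J := mono_root T hb
    have hcI : 0 < #I := card_pos.2 ⟨r', hrI⟩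
    obtain ⟨g, hg0, hg1, hg2, hg3, hg4⟩ := ihb u U huW huU (by omega)
    -- a new neighbour
    have hnew : ∃ w ∈ W, H.Adj u w ∧ w ∉ U ∧ w ∉ J.image g := by
      by_contra hcon
      have hsub : {w ∈ W | H.Adj u w} ⊆ U ∪ (J.image g).erase u := by
        intro w hw
        rw [mem_filter] at hw
        rw [mem_union, mem_erase]
        by_contra h'
        apply hcon
        refine ⟨w, hw.1, hw.2, fun h1 => h' (Or.inl h1), fun h2 => h' (Or.inr ⟨?_, h2⟩)⟩
        exact hw.2.ne'
      have h1 := card_le_card hsub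
      have h2 := card_union_le U ((J.image g).erase u)
      have h3 : u ∈ J.image g := mem_image.2 ⟨r, hrJ, hg0⟩
      have h4 := card_erase_of_mem h3
      have h5 : #(J.image g) ≤ #J := card_image_le
      have h6 : 0 < #(J.image g) := card_pos.2 ⟨u, h3⟩
      have h7 := hW u huW
      omega
    obtain ⟨w, hwW, huw, hwU, hwJ⟩ := hnew
    have hcU : #(U ∪ J.image g) ≤ #U + #J :=
      (card_union_le _ _).trans (Nat.add_le_add_left card_image_le _)
    obtain ⟨f, hf0, hf1, hf2, hf3, hf4⟩ := iha w (U ∪ J.image g) hwW (by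
      rw [mem_union]
      rintro (h' | h')
      · exact hwU h'
      · exact hwJ h') (by omega)
    have hnotJ : ∀ x ∈ I, x ∉ J := fun x hx hx' => (Finset.disjoint_left.1 hdis) hx hx'
    refine ⟨fun x => if x ∈ J then g x else f x, ?_, ?_, ?_, ?_, ?_⟩
    · simp only [if_pos hrJ]
      exact hg0
    · intro x hx
      by_cases hxJ : x ∈ J
      · simp only [if_pos hxJ]
        exact hg1 x hxJ
      · simp only [if_neg hxJ]
        rcases mem_union.1 hx with h' | h'
        · exact hf1 x h'
        · exact absurd h' hxJ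
    · intro x hx
      by_cases hxJ : x ∈ J
      · simp only [if_pos hxJ]
        exact hg2 x hxJ
      · simp only [if_neg hxJ]
        rcases mem_union.1 hx with h' | h'
        · exact fun h'' => hf2 x h' (mem_union_left _ h'')
        · exact absurd h' hxJ
    · intro x hx y hy hxy
      rw [mem_coe, mem_union] at hx hy
      by_cases hxJ : x ∈ J
      · by_cases hyJ : y ∈ J
        · simp only [if_pos hxJ, if_pos hyJ] at hxy
          exact hg3 hxJ hyJ hxy
        · have hyI : y ∈ I := hy.resolve_right hyJ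
          simp only [if_pos hxJ, if_neg hyJ] at hxy
          exact absurd (mem_union_right U (mem_image.2 ⟨x, hxJ, hxy⟩)) (hf2 y hyI)
      · have hxI : x ∈ I := hx.resolve_right hxJ
        by_cases hyJ : y ∈ J
        · simp only [if_pos hyJ, if_neg hxJ] at hxy
          exact absurd (mem_union_right U (mem_image.2 ⟨y, hyJ, hxy.symm⟩)) (hf2 x hxI)
        · have hyI : y ∈ I := hy.resolve_right hyJ
          simp only [if_neg hxJ, if_neg hyJ] at hxy
          exact hf3 hxI hyI hxy
    · intro x hx y hy hxy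
      rw [mem_union] at hx hy
      by_cases hxJ : x ∈ J
      · by_cases hyJ : y ∈ J
        · simp only [if_pos hxJ, if_pos hyJ]
          exact hg4 x hxJ y hyJ hxy
        · have hyI : y ∈ I := hy.resolve_right hyJ
          simp only [if_pos hxJ, if_neg hyJ]
          obtain ⟨h1, h2⟩ := hIJ y hyI x hxJ hxy.symm
          rw [h1, h2, hf0, hg0]
          exact huw
      · have hxI : x ∈ I := hx.resolve_right hxJ
        by_cases hyJ : y ∈ J
        · simp only [if_pos hyJ, if_neg hxJ]
          obtain ⟨h1, h2⟩ := hIJ x hxI y hyJ hxy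
          rw [h1, h2, hf0, hg0]
          exact huw.symm
        · have hyI : y ∈ I := hy.resolve_right hyJ
          simp only [if_neg hxJ, if_neg hyJ]
          exact hf4 x hxI y hyI hxy

theorem st_MONO : ST_MONO := by
  intro m T hT V _ _ H _ W hW hdeg
  obtain ⟨t, ht⟩ := st_CODE (Fin (m + 1)) T hT 0
  obtain ⟨u, hu⟩ := hW
  obtain ⟨f, _, _, _, hinj, hadj⟩ := mono_main T H W m hdeg ht u ∅ hu (notMem_empty u)
    (by simp)
  refine ⟨f, ?_, fun a b hab => hadj a (mem_univ a) b (mem_univ b) hab⟩
  intro x y hxy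
  exact hinj (mem_coe.2 (mem_univ x)) (mem_coe.2 (mem_univ y)) hxy

end ZS
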